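import Pool.Agent.W896.FD.Sum3

/-!
# 3SUM needs many reads or much memory

We consider Boolean circuits with AND gates of fan-in two, OR gates of any fan-in and negations at
the inputs, whose inputs are the bits (sign and absolute value in binary) of `n` numbers. Such a
circuit accepts if and only if it has a proof tree all of whose leaves are true literals; the formal
degree in an input bit is the largest number of leaves with this bit, that is, the number of times
this bit is read. Nondeterministic, in particular deterministic, branching programs are such
circuits (the logarithm of the size is the memory, and a bit which is read at most `k` times on
every path has degree at most `k`), and so are programs with a stack; a proof tree of a circuit may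
even read any part of the input again and again in its branches.

The circuits have to recognise the sets of `n` integers in `[-n ^ 3, n ^ 3]` without a solution
`a + b = c` with three different elements. (The sets with a solution are recognised by a
disjunction of small conjunctions, each of which reads the bits of three numbers once.) Checking all
triples is a circuit of polynomial size and formal degree `O (n ^ 2)` in each bit. We show that the
size is `2 ^ Ω (n)` if the degrees in the bits are bounded by a constant; it is enough that this
holds on average for the `n` least significant bits of the numbers, while all the other bits may be
read as often as one likes. So algorithms of this kind with a memory of `o (n)` bits must read the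
least significant bits of the numbers more than a constant number of times on average, and with a
memory of `O (log n)` bits they must read them `Ω (log n)` times. This remains true for circuits with
one-sided randomness, which find out only with probability `2 ^ (- n / D)` that there is no solution.

Proof. The proof trees are cut into few pieces in which only few of the last bits are read; a random
placement of a matching on the indices makes many pairs monochromatic. The matching is coded in the
other bits: with `m = (n - 1) / 2`, the numbers are `a_v = M + 4 v + x_v`,
`b_v = 3 M + 4 (m - v') + x_v`, where `v'` is the partner of `v`, and `c = 4 M + 4 m + 2`; only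
partners can have the sum `c`, and they have it if and only if both their last bits are one.
-/

set_option autoImplicit false

namespace Pool.Agent.Results.MP_13bec0_lc.FormalDegree

open Pool.Agent.W896.RK Pool.Agent.W896.FD Pool.Agent.W896.FD.Sum3

/-- The bit `(i, none)` is the sign of the number `i`, the bit `(i, some j)` has the weight `2 ^ j`;
`w + 1` bits are enough for `n ^ 3`. Let `U r` (`r` in a finite nonempty set) be circuits none of
which accepts an instance (`n` different integers in `[-n ^ 3, n ^ 3]`) with different `a, b, c` such
that `a + b = c`, and suppose that every instance without such a triple is accepted by at least a
`2 ^ (- ⌊n / 2 ^ (240 (k + 1))⌋)` fraction of them. If in each `U r` the formal degrees in the least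
significant bits of the numbers sum up to at most `k n`, then some `U r` has `g` gates with
`n ≤ 2 ^ (240 (k + 1)) (⌊log₂ g⌋ + 1)`. -/
theorem result (k n w : ℕ) (hw : n ^ 3 < 2 ^ (w + 1))
    (R : Type) [Fintype R] [Nonempty R] (U : R → Circ (Fin n × Option (Fin (w + 1))))
    (hU : ∀ r x, Valid x → (U r).Val x (U r).out → ¬ Yes x)
    (hc : ∀ x, Valid x → ¬ Yes x →
      Nat.card R ≤ 2 ^ (n / 2 ^ (240 * (k + 1))) * Nat.card {r // (U r).Val x (U r).out})
    (hdeg : ∀ r, ∃ f : (U r).G → Fin n × Option (Fin (w + 1)) → ℕ, IsDeg (U r) id f ∧
      ∑ i, f (U r).out (i, some 0) ≤ k * n) :
    ∃ r, n ≤ 2 ^ (240 * (k + 1)) * (Nat.log 2 (Fintype.card (U r).G) + 1) :=
  sum3 k n w hw R U hU hc hdeg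

end Pool.Agent.Results.MP_13bec0_lc.FormalDegree
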