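import Mathlib
import Pool.Agent.W964.Wd.SumMain
import Pool.Agent.W964.Wd.SumUpper

/-!
3SUM needs `n ^ (2 - o(1))` processors on ideal parallel machines with running time
`o(log n / log log n)`, and `n ^ 2` processors suffice for running time 3.
-/

namespace Pool.Agent.Results.MP_13bec0_lc.ParallelMachines

open Pool.Agent.W964.Wd Finset

open Classical in
theorem result (ε : ℝ) (hε : 0 < ε) (hε1 : ε ≤ 1) (K : ℕ) :
    (∃ δ : ℝ, 0 < δ ∧ ∃ n₀ : ℕ, ∀ n : ℕ, n₀ ≤ n →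
      ∃ (Ξ : Type) (_ : Fintype Ξ) (μ : Ξ → ℝ) (x x' : Ξ → Fin n → ℤ),
        (∀ ξ, 0 ≤ μ ξ) ∧ ∑ ξ, μ ξ = 1 ∧
        (∀ ξ, μ ξ ≠ 0 → SumInst n (x ξ) ∧ ¬ SumYes (x ξ) ∧ SumInst n (x' ξ) ∧ SumYes (x' ξ)) ∧
        ∀ T P : ℕ, 1 ≤ T → T * Real.log (Real.log n) ≤ δ * Real.log n →
          (P : ℝ) ≤ (n : ℝ) ^ (2 - ε) →
          (∀ M : Machine ℤ (Fin n) P, M.Lists (n ^ K) →
            ∑ ξ, μ ξ * (if M.result T (x ξ) ≠ M.result T (x' ξ) then (1 : ℝ) else 0) ≤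
              (n : ℝ) ^ (-(ε / 3))) ∧
          (∀ R : RandMachine ℤ (Fin n) P, R.Lists (n ^ K) →
            ∃ z : Fin n → ℤ, SumInst n z ∧
              R.success T z (SumYes z) ≤ 1 / 2 + (n : ℝ) ^ (-(ε / 3)))) ∧
    (∀ n : ℕ, ∃ M : Machine ℤ (Fin n) (n * n), M.Lists 1 ∧
      ∀ T : ℕ, 3 ≤ T → ∀ x : Fin n → ℤ, StrictMono x → (M.answer T x = true ↔ SumYes x)) := by
  constructor
  · obtain ⟨δ, hδ, n₀, h⟩ := sum_core ε hε hε1 K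
    refine ⟨δ, hδ, n₀, fun n hn => ?_⟩
    obtain ⟨Ξ, fΞ, μ, x, x', h0, h1, h2, h3⟩ := h n hn
    refine ⟨Ξ, fΞ, μ, x, x', h0, h1, h2, fun T P hT hTn hP => ⟨fun M hM => ?_, fun R hR => ?_⟩⟩
    · exact h3 T P hT hTn hP M hM
    · exact rand_pairs R T μ h0 h1 x x' (SumInst n) SumYes h2 (by positivity)
        (fun ω => h3 T P hT hTn hP (R.mach ω) (hR ω))
  · intro n
    exact ⟨sumMach n, sumMach_lists n, fun T hT x hx => sumMach_correct x hx T hT⟩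

end Pool.Agent.Results.MP_13bec0_lc.ParallelMachines
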